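import Pool.Agent.H85.SEL.Sel

/-!
# Selection of a symbol, given side information
-/

set_option autoImplicit false

namespace Pool.SEL

open Finset Real
open Pool.Agent.H49.Ent
open scoped BigOperators

variable {Ω : Type*} [Fintype Ω] {α β γ : Type*}

/-- A mean is the mean of the conditional means. -/
theorem mean_cond [DecidableEq γ] {p : Ω → ℝ} (hp : ∀ ω, 0 ≤ p ω) (z : Ω → γ) (f : Ω → ℝ) :
    ∑ ω, p ω * f ω = ∑ s ∈ univ.image z, law p z s * ∑ ω, cond p z s ω * f ω := by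
  classical
  simp_rw [Finset.mul_sum]
  rw [Finset.sum_comm]
  refine Finset.sum_congr rfl fun ω _ => ?_
  rw [Finset.sum_eq_single (z ω)]
  · unfold Pool.Agent.H49.Ent.cond
    rw [if_pos rfl]
    by_cases h0 : p ω = 0
    · simp [h0]
    · have hω : 0 < p ω := lt_of_le_of_ne (hp ω) (Ne.symm h0)
      have := law_pos hp z hω
      field_simp
  · intro s _ hs
    unfold Pool.Agent.H49.Ent.cond
    rw [if_neg (Ne.symm hs)]
    simp
  · intro h
    exact absurd (Finset.mem_image_of_mem z (Finset.mem_univ ω)) h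

/-- **Selection, given `z`.** -/
theorem sel_cond {p : Ω → ℝ} (hp : ∀ ω, 0 ≤ p ω) (h1 : ∑ ω, p ω = 1) (x : Ω → α) (y : Ω → β)
    (z : Ω → γ) (c : γ → α → β → ℝ) (hc : ∀ s a b, 0 ≤ c s a b) {δ : ℝ} (hδ : 0 < δ)
    (hδ1 : δ ≤ 1) :
    ∃ g : γ → α → β,
      (∀ ω, 0 < p ω → ∃ ω', 0 < p ω' ∧ z ω' = z ω ∧ x ω' = x ω ∧ y ω' = g (z ω) (x ω)) ∧
      CH p (fun ω => g (z ω) (x ω)) z + ∑ ω, p ω * c (z ω) (x ω) (g (z ω) (x ω)) ≤
        (1 + 3 * δ) * (CH p x z + CH p y z - CH p (fun ω => (x ω, y ω)) z +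
          ∑ ω, p ω * c (z ω) (x ω) (y ω)) + 5 * Lg δ + 15 := by
  classical
  obtain ⟨ω₁, hω₁⟩ : ∃ ω, 0 < p ω := by
    by_contra hcon
    push Not at hcon
    have : ∑ ω, p ω = 0 := Finset.sum_eq_zero (fun ω _ => le_antisymm (hcon ω) (hp ω))
    linarith
  have key : ∀ s, ∃ g : α → β, law p z s ≠ 0 →
      (∀ ω, 0 < cond p z s ω → ∃ ω', 0 < cond p z s ω' ∧ x ω' = x ω ∧ y ω' = g (x ω)) ∧
      H (cond p z s) (fun ω => g (x ω)) + ∑ ω, cond p z s ω * c s (x ω) (g (x ω)) ≤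
        (1 + 3 * δ) * (H (cond p z s) x + H (cond p z s) y -
          H (cond p z s) (fun ω => (x ω, y ω)) + ∑ ω, cond p z s ω * c s (x ω) (y ω)) +
          5 * Lg δ + 15 := by
    intro s
    by_cases hs : law p z s = 0
    · exact ⟨fun _ => y ω₁, fun h => absurd hs h⟩
    · obtain ⟨g, h2, h3⟩ := sel (cond_nonneg hp z s) (sum_cond p z hs) x y (c s) (hc s) hδ hδ1
      exact ⟨g, fun _ => ⟨h2, h3⟩⟩
  choose g hg using key
  refine ⟨g, ?_, ?_⟩
  · intro ω hω
    have hs : law p z (z ω) ≠ 0 := (law_pos hp z hω).ne'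
    obtain ⟨ω', h2, h3, h4⟩ := (hg (z ω) hs).1 ω ((cond_pos_iff hp z (z ω) ω).mpr ⟨hω, rfl⟩)
    rw [cond_pos_iff hp] at h2
    exact ⟨ω', h2.1, h2.2, h3, h4⟩
  · have e0 : CH p (fun ω => g (z ω) (x ω)) z =
        ∑ s ∈ univ.image z, law p z s * H (cond p z s) (fun ω => g s (x ω)) := by
      rw [CH_eq_sum hp]
      refine Finset.sum_congr rfl fun s _ => ?_
      congr 1
      refine H_congr (cond_nonneg hp z s) ?_ ?_
      · intro ω ω' h2 h3 h4
        rw [cond_pos_iff hp] at h2 h3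
        show g (z ω) (x ω) = g (z ω') (x ω')
        rw [h2.2, h3.2]
        exact h4
      · intro ω ω' h2 h3 h4
        rw [cond_pos_iff hp] at h2 h3
        have h5 : g (z ω) (x ω) = g (z ω') (x ω') := h4
        rw [h2.2, h3.2] at h5
        exact h5
    have e1 : ∀ f : γ → Ω → ℝ, ∑ ω, p ω * f (z ω) ω =
        ∑ s ∈ univ.image z, law p z s * ∑ ω, cond p z s ω * f s ω := by
      intro f
      rw [mean_cond hp z]
      refine Finset.sum_congr rfl fun s _ => ?_
      congr 1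
      refine Finset.sum_congr rfl fun ω _ => ?_
      unfold Pool.Agent.H49.Ent.cond
      split_ifs with h
      · rw [h]
      · simp
    have e2 := e1 (fun s ω => c s (x ω) (g s (x ω)))
    have e3 := e1 (fun s ω => c s (x ω) (y ω))
    have e4 : ∑ s ∈ univ.image z, law p z s = 1 := by rw [sum_law, h1]
    rw [e0, e2, e3, CH_eq_sum hp x, CH_eq_sum hp y, CH_eq_sum hp (fun ω => (x ω, y ω)),
      ← Finset.sum_add_distrib, ← Finset.sum_add_distrib, ← Finset.sum_sub_distrib,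
      ← Finset.sum_add_distrib, Finset.mul_sum]
    have e5 : (5 * Lg δ + 15) = ∑ s ∈ univ.image z, law p z s * (5 * Lg δ + 15) := by
      rw [← Finset.sum_mul, e4, one_mul]
    rw [add_assoc, e5, ← Finset.sum_add_distrib]
    refine Finset.sum_le_sum fun s _ => ?_
    by_cases hs : law p z s = 0
    · rw [hs]
      simp
    · have h2 := (hg s hs).2
      have h3 := mul_le_mul_of_nonneg_left h2 (law_nonneg hp z s)
      linarith

end Pool.SEL
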