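import Pool.Agent.H49.Ent

/-!
# Choosing one symbol: greedy choice with small entropy

`greedy`: if every `a` in `S` has a set `G a` of admissible symbols of mass at least `q` for one
law `Q`, then some choice `g a` in `G a` has entropy at most `log (1/q) + 1`.
-/

set_option autoImplicit false

namespace Pool.SEL

open Finset Real
open scoped BigOperators

variable {α β : Type*}

/-- The elementary inequality of the greedy step. -/
theorem step_le {M m q : ℝ} (hq : 0 < q) (hM : 0 < M) (hm : q * M ≤ m) (hmM : m ≤ M) :
    m * Real.log (1 / m) + (M - m) * (Real.log (1 / q) + Real.log (1 / (M - m)) + 1)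
      ≤ M * (Real.log (1 / q) + Real.log (1 / M) + 1) := by
  have hm0 : 0 < m := lt_of_lt_of_le (mul_pos hq hM) hm
  have h1 : Real.log (1 / m) ≤ Real.log (1 / q) + Real.log (1 / M) := by
    rw [← Real.log_mul (by positivity) (by positivity)]
    refine Real.log_le_log (by positivity) ?_
    rw [one_div_mul_one_div]
    exact one_div_le_one_div_of_le (mul_pos hq hM) hm
  have h2 : (M - m) * Real.log (1 / (M - m)) ≤ (M - m) * Real.log (1 / M) + m := by
    rcases eq_or_lt_of_le hmM with h | h
    · subst h
      simpa using hm0.le
    · have hd : 0 < M - m := sub_pos.mpr h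
      have h3 : Real.log (M / (M - m)) ≤ M / (M - m) - 1 :=
        Real.log_le_sub_one_of_pos (div_pos hM hd)
      have h4 : Real.log (M / (M - m)) = Real.log (1 / (M - m)) - Real.log (1 / M) := by
        rw [Real.log_div hM.ne' hd.ne', one_div, one_div, Real.log_inv, Real.log_inv]
        ring
      have h5 : (M - m) * Real.log (M / (M - m)) ≤ (M - m) * (M / (M - m) - 1) :=
        mul_le_mul_of_nonneg_left h3 hd.le
      have h6 : (M - m) * (M / (M - m) - 1) = m := by
        field_simp
        ring
      rw [h6, h4] at h5
      linarith
  have h7 := mul_le_mul_of_nonneg_left h1 hm0.le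
  nlinarith [h7, h2]

/-- **The greedy choice**. -/
theorem greedy [DecidableEq α] [DecidableEq β] [Nonempty β] {P : α → ℝ} (hP : ∀ a, 0 ≤ P a)
    {T : Finset β} {Q : β → ℝ} (hQ : ∀ b ∈ T, 0 ≤ Q b) (hQ1 : ∑ b ∈ T, Q b ≤ 1)
    {G : α → Finset β} (hG : ∀ a, G a ⊆ T) {q : ℝ} (hq : 0 < q) (S : Finset α) :
    (∀ a ∈ S, q ≤ ∑ b ∈ G a, Q b) →
    ∃ g : α → β, (∀ a ∈ S, g a ∈ G a) ∧
      ∑ a ∈ S, P a * Real.log (1 / ∑ a' ∈ S.filter (fun a' => g a' = g a), P a')
        ≤ (∑ a ∈ S, P a) * (Real.log (1 / q) + Real.log (1 / ∑ a ∈ S, P a) + 1) := by
  induction S using Finset.strongInduction with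
  | H S ih =>
    intro hS
    have hne : ∀ a ∈ S, (G a).Nonempty := by
      intro a ha
      by_contra hcon
      rw [Finset.not_nonempty_iff_eq_empty] at hcon
      have := hS a ha
      rw [hcon, Finset.sum_empty] at this
      linarith
    have hM0 : 0 ≤ ∑ a ∈ S, P a := Finset.sum_nonneg fun a _ => hP a
    rcases eq_or_lt_of_le hM0 with hM | hM
    · -- no mass
      have hz : ∀ a ∈ S, P a = 0 := (Finset.sum_eq_zero_iff_of_nonneg fun a _ => hP a).mp hM.symm
      classical
      refine ⟨fun a => if h : a ∈ S then (hne a h).choose else Classical.arbitrary β, ?_, ?_⟩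
      · intro a ha
        simp only [ha, dif_pos]
        exact (hne a ha).choose_spec
      · rw [← hM, zero_mul]
        refine le_of_eq (Finset.sum_eq_zero fun a ha => ?_)
        rw [hz a ha, zero_mul]
    · -- the symbol which captures most
      set M := ∑ a ∈ S, P a with hMdef
      have hSne : S.Nonempty := by
        by_contra hcon
        rw [Finset.not_nonempty_iff_eq_empty] at hcon
        rw [hMdef, hcon, Finset.sum_empty] at hM
        exact lt_irrefl _ hM
      obtain ⟨a0, ha0⟩ := hSne
      have hTne : T.Nonempty := (hne a0 ha0).mono (hG a0)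
      obtain ⟨b, hbT, hbmax⟩ := Finset.exists_max_image T
        (fun b => ∑ a ∈ S.filter (fun a => b ∈ G a), P a) hTne
      set m := ∑ a ∈ S.filter (fun a => b ∈ G a), P a with hmdef
      have hm0 : 0 ≤ m := Finset.sum_nonneg fun a _ => hP a
      have hqm : q * M ≤ m := by
        have h1 : q * M ≤ ∑ a ∈ S, P a * ∑ b ∈ G a, Q b := by
          rw [hMdef, Finset.mul_sum]
          refine Finset.sum_le_sum fun a ha => ?_
          rw [mul_comm]
          exact mul_le_mul_of_nonneg_left (hS a ha) (hP a)
        have h2 : ∑ a ∈ S, P a * ∑ b ∈ G a, Q b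
            = ∑ b ∈ T, Q b * ∑ a ∈ S.filter (fun a => b ∈ G a), P a := by
          have h3 : ∀ a ∈ S, P a * ∑ b ∈ G a, Q b
              = ∑ b ∈ T, if b ∈ G a then P a * Q b else 0 := by
            intro a _
            rw [Finset.mul_sum, ← Finset.sum_filter, Finset.filter_mem_eq_inter,
              Finset.inter_eq_right.mpr (hG a)]
          rw [Finset.sum_congr rfl h3, Finset.sum_comm]
          refine Finset.sum_congr rfl fun b _ => ?_
          rw [Finset.mul_sum, Finset.sum_filter]
          refine Finset.sum_congr rfl fun a _ => ?_
          split_ifs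
          · ring
          · rfl
        have h4 : ∑ b ∈ T, Q b * ∑ a ∈ S.filter (fun a => b ∈ G a), P a ≤ ∑ b ∈ T, Q b * m :=
          Finset.sum_le_sum fun b' hb' => mul_le_mul_of_nonneg_left (hbmax b' hb') (hQ b' hb')
        have h5 : ∑ b ∈ T, Q b * m ≤ m := by
          rw [← Finset.sum_mul]
          calc (∑ b ∈ T, Q b) * m ≤ 1 * m := mul_le_mul_of_nonneg_right hQ1 hm0
            _ = m := one_mul m
        linarith
      have hmpos : 0 < m := lt_of_lt_of_le (mul_pos hq hM) hqm
      have hmM : m ≤ M := Finset.sum_le_sum_of_subset_of_nonneg (Finset.filter_subset _ _)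
        fun a _ _ => hP a
      have hsub : S.filter (fun a => b ∉ G a) ⊂ S := by
        refine Finset.filter_ssubset.mpr ?_
        by_contra hcon
        push Not at hcon
        have : m = 0 := by
          rw [hmdef]
          refine Finset.sum_eq_zero fun a ha => ?_
          rw [Finset.mem_filter] at ha
          exact absurd ha.2 (by simpa using hcon a ha.1)
        linarith
      obtain ⟨g', hg', hE⟩ := ih _ hsub fun a ha => hS a (Finset.mem_filter.mp ha).1
      have hcompl : ∑ a ∈ S.filter (fun a => b ∉ G a), P a = M - m := by
        have := Finset.sum_filter_add_sum_filter_not S (fun a => b ∈ G a) P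
        rw [hMdef, hmdef]
        linarith
      refine ⟨fun a => if b ∈ G a then b else g' a, ?_, ?_⟩
      · intro a ha
        by_cases h : b ∈ G a
        · simp only [h, if_true]
        · simp only [h, if_false]
          exact hg' a (Finset.mem_filter.mpr ⟨ha, h⟩)
      · rw [← Finset.sum_filter_add_sum_filter_not S (fun a => b ∈ G a)]
        have hA : ∑ a ∈ S.filter (fun a => b ∈ G a), P a * Real.log (1 / ∑ a' ∈ S.filter
            (fun a' => (if b ∈ G a' then b else g' a') = (if b ∈ G a then b else g' a)), P a')
            = m * Real.log (1 / m) := by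
          rw [hmdef, Finset.sum_mul]
          refine Finset.sum_congr rfl fun a ha => ?_
          rw [Finset.mem_filter] at ha
          have hset : S.filter (fun a' => (if b ∈ G a' then b else g' a')
              = (if b ∈ G a then b else g' a)) = S.filter (fun a => b ∈ G a) := by
            refine Finset.filter_congr fun a' ha' => ?_
            rw [if_pos ha.2]
            by_cases h : b ∈ G a'
            · simp [h]
            · simp only [h, if_false, iff_false]
              intro hc
              exact h (hc ▸ hg' a' (Finset.mem_filter.mpr ⟨ha', h⟩))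
          rw [hset]
        have hB : ∑ a ∈ S.filter (fun a => b ∉ G a), P a * Real.log (1 / ∑ a' ∈ S.filter
            (fun a' => (if b ∈ G a' then b else g' a') = (if b ∈ G a then b else g' a)), P a')
            = ∑ a ∈ S.filter (fun a => b ∉ G a), P a * Real.log
              (1 / ∑ a' ∈ (S.filter (fun a => b ∉ G a)).filter (fun a' => g' a' = g' a), P a') := by
          refine Finset.sum_congr rfl fun a ha => ?_
          have ha2 := ha
          rw [Finset.mem_filter] at ha
          have hset : S.filter (fun a' => (if b ∈ G a' then b else g' a')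
              = (if b ∈ G a then b else g' a))
              = (S.filter (fun a => b ∉ G a)).filter (fun a' => g' a' = g' a) := by
            rw [Finset.filter_filter]
            refine Finset.filter_congr fun a' ha' => ?_
            rw [if_neg ha.2]
            by_cases h : b ∈ G a'
            · simp only [h, if_true, not_true_eq_false, false_and, iff_false]
              intro hc
              exact ha.2 (hc ▸ hg' a ha2)
            · simp [h]
          rw [hset]
        rw [hA, hB]
        rw [hcompl] at hE
        have := step_le hq hM hqm hmM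
        linarith

end Pool.SEL
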