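import Pool.Agent.H85.SEL.Gibbs
import Pool.Agent.H85.SEL.Greedy

/-!
# A choice with small entropy: sets of admissible symbols with different masses

`cover`: if every value `a` of `x` has a set `G a` of admissible symbols with `exp (- w a) ≤ Q (G a)`
for one subprobability `Q`, then some choice `g` has `H (g x) ≤ (1 + δ) (E w + 1) + 1 + Lg δ`.
-/

set_option autoImplicit false

namespace Pool.SEL

open Finset Real
open Pool.Agent.H49.Ent
open scoped BigOperators

variable {Ω : Type*} [Fintype Ω] {α β : Type*}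

/-- Sums over a fibre. -/
theorem sum_fibre [DecidableEq α] (p : Ω → ℝ) (x : Ω → α) (a : α) (f : Ω → ℝ)
    (g : α → ℝ) (h : ∀ ω, x ω = a → f ω = g a) :
    ∑ ω ∈ univ.filter (fun ω => x ω = a), p ω * f ω = law p x a * g a := by
  classical
  unfold law
  rw [Finset.sum_mul, Finset.sum_filter]
  refine Finset.sum_congr rfl fun ω _ => ?_
  by_cases h1 : x ω = a
  · rw [if_pos h1, if_pos h1, h ω h1]
  · rw [if_neg h1, if_neg h1, zero_mul]

/-- The law of a function of `x`, as a sum over the values of `x`. -/
theorem law_fun [DecidableEq α] {γ : Type*} [DecidableEq γ] (p : Ω → ℝ) (x : Ω → α) (f : α → γ)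
    (c : γ) : law p (fun ω => f (x ω)) c
      = ∑ a ∈ (univ.image x).filter (fun a => f a = c), law p x a := by
  classical
  have h := sum_mul_eq_sum_image p x (fun a => if f a = c then (1 : ℝ) else 0)
  rw [Finset.sum_filter]
  have h1 : law p (fun ω => f (x ω)) c = ∑ ω, p ω * (if f (x ω) = c then (1 : ℝ) else 0) := by
    unfold law
    refine Finset.sum_congr rfl fun ω _ => ?_
    split_ifs <;> simp
  rw [h1, h]
  refine Finset.sum_congr rfl fun a _ => ?_
  split_ifs <;> simp

/-- **The choice.** -/
theorem cover {p : Ω → ℝ} (hp : ∀ ω, 0 ≤ p ω) (h1 : ∑ ω, p ω = 1) (x : Ω → α)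
    [DecidableEq β] [Nonempty β] {T : Finset β} {Q : β → ℝ} (hQ : ∀ b ∈ T, 0 ≤ Q b)
    (hQ1 : ∑ b ∈ T, Q b ≤ 1) {G : α → Finset β} (hG : ∀ a, G a ⊆ T) (w : α → ℝ)
    (hw : ∀ ω, 0 < p ω → Real.exp (-w (x ω)) ≤ ∑ b ∈ G (x ω), Q b) (hw0 : ∀ a, 0 ≤ w a)
    {δ : ℝ} (hδ : 0 < δ) :
    ∃ g : α → β, (∀ ω, 0 < p ω → g (x ω) ∈ G (x ω)) ∧
      H p (fun ω => g (x ω)) ≤ (1 + δ) * (∑ ω, p ω * w (x ω) + 1) + 1 + Lg δ := by
  classical
  -- the classes
  obtain ⟨j, hj⟩ : ∃ j : α → ℕ, j = fun a => ⌈w a⌉₊ := ⟨_, rfl⟩
  have hj1 : ∀ a, w a ≤ j a := by intro a; rw [hj]; exact Nat.le_ceil _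
  have hj2 : ∀ a, (j a : ℝ) ≤ w a + 1 := by
    intro a
    rw [hj]
    exact (Nat.ceil_lt_add_one (hw0 a)).le
  obtain ⟨S, hS⟩ : ∃ S : Finset α, S = (univ.image x).filter (fun a => 0 < law p x a) := ⟨_, rfl⟩
  have hmemS : ∀ ω, 0 < p ω → x ω ∈ S := by
    intro ω hω
    rw [hS, Finset.mem_filter]
    exact ⟨Finset.mem_image_of_mem _ (Finset.mem_univ _), law_pos hp x hω⟩
  have hSx : ∀ a ∈ S, ∃ ω, 0 < p ω ∧ x ω = a := by
    intro a ha
    rw [hS, Finset.mem_filter] at ha
    by_contra hcon
    push Not at hcon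
    have : law p x a = 0 := by
      unfold law
      refine Finset.sum_eq_zero fun ω _ => ?_
      split_ifs with h
      · by_contra h0
        exact hcon ω (lt_of_le_of_ne (hp ω) (Ne.symm h0)) h
      · rfl
    rw [this] at ha
    exact lt_irrefl _ ha.2
  have hgr : ∀ i : ℕ, ∃ g : α → β, (∀ a ∈ S.filter (fun a => j a = i), g a ∈ G a) ∧
      ∑ a ∈ S.filter (fun a => j a = i), law p x a * Real.log (1 / ∑ a' ∈
        (S.filter (fun a => j a = i)).filter (fun a' => g a' = g a), law p x a')
      ≤ (∑ a ∈ S.filter (fun a => j a = i), law p x a) * (Real.log (1 / Real.exp (-(i : ℝ))) +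
        Real.log (1 / ∑ a ∈ S.filter (fun a => j a = i), law p x a) + 1) := by
    intro i
    refine greedy (fun a => law_nonneg hp x a) hQ hQ1 hG (Real.exp_pos _) _ ?_
    intro a ha
    rw [Finset.mem_filter] at ha
    obtain ⟨ω, hω, rfl⟩ := hSx a ha.1
    refine le_trans (Real.exp_le_exp.mpr ?_) (hw ω hω)
    have := hj1 (x ω)
    rw [ha.2] at this
    linarith
  choose gi hgi1 hgi2 using hgr
  refine ⟨fun a => gi (j a) a, ?_, ?_⟩
  · intro ω hω
    exact hgi1 (j (x ω)) (x ω) (Finset.mem_filter.mpr ⟨hmemS ω hω, rfl⟩)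
  · have hmono : H p (fun ω => gi (j (x ω)) (x ω)) ≤
        H p (fun ω => (gi (j (x ω)) (x ω), j (x ω))) :=
      H_mono hp fun ω ω' _ _ h => congrArg Prod.fst h
    have hkey : H p (fun ω => (gi (j (x ω)) (x ω), j (x ω))) ≤
        ∑ ω, p ω * (j (x ω) : ℝ) + H p (fun ω => j (x ω)) + 1 := by
      -- the sums over the values
      have e1 : H p (fun ω => (gi (j (x ω)) (x ω), j (x ω))) =
          ∑ a ∈ S, law p x a * Real.log (1 / ∑ a' ∈
            (S.filter (fun a' => j a' = j a)).filter (fun a' => gi (j a) a' = gi (j a) a),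
              law p x a') := by
        obtain ⟨A, hA⟩ : ∃ A : α → ℝ, A = fun a => -Real.log (law p
          (fun ω => (fun a => (gi (j a) a, j a)) (x ω)) (gi (j a) a, j a)) := ⟨_, rfl⟩
        have e2 : H p (fun ω => (gi (j (x ω)) (x ω), j (x ω))) = ∑ ω, p ω * A (x ω) := by
          rw [hA]
          unfold H
          rw [← Finset.sum_neg_distrib]
          exact Finset.sum_congr rfl fun ω _ => by ring
        rw [e2, sum_mul_eq_sum_image p x A]
        have e3 : ∑ s ∈ univ.image x, law p x s * A s = ∑ s ∈ S, law p x s * A s := by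
          rw [hS, Finset.sum_filter]
          refine Finset.sum_congr rfl fun a _ => ?_
          split_ifs with h
          · rfl
          · have : law p x a = 0 := le_antisymm (not_lt.mp h) (law_nonneg hp x a)
            rw [this, zero_mul]
        rw [e3, hA]
        refine Finset.sum_congr rfl fun a _ => ?_
        congr 1
        show -Real.log (law p (fun ω => (fun a => (gi (j a) a, j a)) (x ω)) (gi (j a) a, j a)) = _
        rw [law_fun p x (fun a => (gi (j a) a, j a)), one_div, Real.log_inv]
        congr 2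
        -- the two index sets have the same sum
        have e4 : ∑ a' ∈ (univ.image x).filter (fun a' => (gi (j a') a', j a') =
            (gi (j a) a, j a)), law p x a' = ∑ a' ∈ ((univ.image x).filter (fun a' =>
              (gi (j a') a', j a') = (gi (j a) a, j a))).filter (fun a' => 0 < law p x a'),
              law p x a' := by
          rw [Finset.sum_filter (p := fun a' => 0 < law p x a')]
          refine Finset.sum_congr rfl fun a' _ => ?_
          split_ifs with h
          · rfl
          · exact le_antisymm (not_lt.mp h) (law_nonneg hp x a')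
        rw [e4]
        refine Finset.sum_congr ?_ fun _ _ => rfl
        ext a'
        simp only [hS, Finset.mem_filter, Prod.mk.injEq]
        constructor
        · rintro ⟨⟨h2, h3, h4⟩, h5⟩
          exact ⟨⟨⟨h2, h5⟩, h4⟩, by rw [h4] at h3; exact h3⟩
        · rintro ⟨⟨⟨h2, h5⟩, h4⟩, h3⟩
          exact ⟨⟨h2, by rw [h4]; exact h3, h4⟩, h5⟩
      have e5 : ∑ ω, p ω * (j (x ω) : ℝ) + H p (fun ω => j (x ω)) + 1 =
          ∑ a ∈ S, law p x a * ((j a : ℝ) + Real.log (1 / ∑ a' ∈ S.filter (fun a' => j a' = j a),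
            law p x a') + 1) := by
        obtain ⟨A, hA⟩ : ∃ A : α → ℝ, A = fun a => (j a : ℝ) -
          Real.log (law p (fun ω => j (x ω)) (j a)) + 1 := ⟨_, rfl⟩
        have e6 : ∑ ω, p ω * (j (x ω) : ℝ) + H p (fun ω => j (x ω)) + 1 =
            ∑ ω, p ω * A (x ω) := by
          have e : ∑ ω, p ω * A (x ω) = ∑ ω, (p ω * (j (x ω) : ℝ) +
              -(p ω * Real.log (law p (fun ω => j (x ω)) (j (x ω)))) + p ω) := by
            rw [hA]
            exact Finset.sum_congr rfl fun ω _ => by ring
          rw [e, Finset.sum_add_distrib, Finset.sum_add_distrib, Finset.sum_neg_distrib, h1]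
          rfl
        rw [e6, sum_mul_eq_sum_image p x A]
        have e7 : ∀ f : α → ℝ, ∑ s ∈ univ.image x, law p x s * f s = ∑ s ∈ S, law p x s * f s := by
          intro f
          rw [hS, Finset.sum_filter]
          refine Finset.sum_congr rfl fun a _ => ?_
          split_ifs with h
          · rfl
          · have : law p x a = 0 := le_antisymm (not_lt.mp h) (law_nonneg hp x a)
            rw [this, zero_mul]
        rw [e7, hA]
        refine Finset.sum_congr rfl fun a _ => ?_
        congr 1
        show (j a : ℝ) - Real.log (law p (fun ω => j (x ω)) (j a)) + 1 = _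
        rw [law_fun p x j, one_div, Real.log_inv]
        have e8 : ∑ a' ∈ (univ.image x).filter (fun a' => j a' = j a), law p x a' =
            ∑ a' ∈ S.filter (fun a' => j a' = j a), law p x a' := by
          rw [hS, Finset.filter_filter, Finset.sum_filter, Finset.sum_filter]
          refine Finset.sum_congr rfl fun a' _ => ?_
          by_cases h : 0 < law p x a'
          · simp [h]
          · have : law p x a' = 0 := le_antisymm (not_lt.mp h) (law_nonneg hp x a')
            simp [this]
        rw [e8]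
        ring
      rw [e1, e5]
      -- split into classes
      have hsplit : ∀ f : α → ℝ, ∑ a ∈ S, f a =
          ∑ i ∈ S.image j, ∑ a ∈ S.filter (fun a => j a = i), f a := by
        intro f
        exact (Finset.sum_fiberwise_of_maps_to (fun a ha => Finset.mem_image_of_mem j ha) f).symm
      rw [hsplit, hsplit (fun a => law p x a * ((j a : ℝ) + Real.log (1 / ∑ a' ∈
        S.filter (fun a' => j a' = j a), law p x a') + 1))]
      refine Finset.sum_le_sum fun i _ => ?_
      have e9 : ∑ a ∈ S.filter (fun a => j a = i), law p x a * Real.log (1 / ∑ a' ∈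
            (S.filter (fun a' => j a' = j a)).filter (fun a' => gi (j a) a' = gi (j a) a),
              law p x a') = ∑ a ∈ S.filter (fun a => j a = i), law p x a * Real.log (1 / ∑ a' ∈
        (S.filter (fun a => j a = i)).filter (fun a' => gi i a' = gi i a), law p x a') := by
        refine Finset.sum_congr rfl fun a ha => ?_
        rw [(Finset.mem_filter.mp ha).2]
      have e10 : ∑ a ∈ S.filter (fun a => j a = i), law p x a * ((j a : ℝ) + Real.log (1 / ∑ a' ∈
        S.filter (fun a' => j a' = j a), law p x a') + 1) =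
          (∑ a ∈ S.filter (fun a => j a = i), law p x a) * (Real.log (1 / Real.exp (-(i : ℝ))) +
        Real.log (1 / ∑ a ∈ S.filter (fun a => j a = i), law p x a) + 1) := by
        rw [Finset.sum_mul]
        refine Finset.sum_congr rfl fun a ha => ?_
        rw [(Finset.mem_filter.mp ha).2]
        congr 2
        rw [one_div (Real.exp (-(i : ℝ))), ← Real.exp_neg, neg_neg, Real.log_exp]
      rw [e9, e10]
      exact hgi2 i
    have hjm : ∑ ω, p ω * (j (x ω) : ℝ) ≤ ∑ ω, p ω * w (x ω) + 1 := by
      calc ∑ ω, p ω * (j (x ω) : ℝ) ≤ ∑ ω, p ω * (w (x ω) + 1) :=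
            Finset.sum_le_sum fun ω _ => mul_le_mul_of_nonneg_left (hj2 _) (hp ω)
        _ = ∑ ω, p ω * w (x ω) + 1 := by
            simp_rw [mul_add, mul_one]
            rw [Finset.sum_add_distrib, h1]
    have hH := H_nat_le hp h1 (fun ω => j (x ω)) hδ
    have h5 := mul_le_mul_of_nonneg_left hjm hδ.le
    linarith

end Pool.SEL
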