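import Pool.Agent.H9.SH.Gen
import Pool.Agent.H9.SH.Info
import Pool.Agent.H85.SEL.Cond

/-!
# Deterministic labels from soft labels

`sel_law`: selection with the cost non-negative on the support. `det_gen`: the label of a cell is a
function of the cell. `det`: the label of a curve is a function of the curve.
-/

set_option autoImplicit false

namespace Pool.SEL

open Finset Real
open Pool.Agent.H49.Ent Pool.Agent.H32.Dense Pool.STK Pool.KA

/-- **Selection.** -/
theorem sel_law {E α β γ : Type} [Fintype E] {q : E → ℝ} (hq : IsLaw q) (x : E → α) (y : E → β)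
    (z : E → γ) (c : γ → α → β → ℝ) (hc : ∀ a, 0 < q a → 0 ≤ c (z a) (x a) (y a)) {δ : ℝ}
    (hδ : 0 < δ) (hδ1 : δ ≤ 1) :
    ∃ g : γ → α → β,
      (∀ a, 0 < q a → ∃ a', 0 < q a' ∧ z a' = z a ∧ x a' = x a ∧ y a' = g (z a) (x a)) ∧
      CH q (fun a => g (z a) (x a)) z + Ex q (fun a => c (z a) (x a) (g (z a) (x a))) ≤
        (1 + 3 * δ) * (CH q y z - CH q y (fun a => (x a, z a)) +
          Ex q (fun a => c (z a) (x a) (y a))) + 5 * Lg δ + 15 := by
  obtain ⟨g, h1, h2⟩ := sel_cond hq.nonneg hq.sum_one x y z (fun s a b => max (c s a b) 0)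
    (fun s a b => le_max_right _ _) hδ hδ1
  refine ⟨g, h1, ?_⟩
  have e1 : ∑ a, q a * max (c (z a) (x a) (g (z a) (x a))) 0 =
      Ex q (fun a => c (z a) (x a) (g (z a) (x a))) := by
    unfold Ex
    refine Finset.sum_congr rfl fun a _ => ?_
    by_cases h0 : q a = 0
    · rw [h0, zero_mul, zero_mul]
    · have ha : 0 < q a := lt_of_le_of_ne (hq.nonneg a) (Ne.symm h0)
      obtain ⟨a', h3, h4, h5, h6⟩ := h1 a ha
      have h7 := hc a' h3
      rw [h4, h5, h6] at h7
      rw [max_eq_left h7]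
  have e2 : ∑ a, q a * max (c (z a) (x a) (y a)) 0 = Ex q (fun a => c (z a) (x a) (y a)) := by
    unfold Ex
    refine Finset.sum_congr rfl fun a _ => ?_
    by_cases h0 : q a = 0
    · rw [h0, zero_mul, zero_mul]
    · have ha : 0 < q a := lt_of_le_of_ne (hq.nonneg a) (Ne.symm h0)
      rw [max_eq_left (hc a ha)]
  have e3 := CH_chain hq.nonneg y x z
  have e4 : CH q (fun a => (x a, y a)) z = CH q (fun a => (y a, x a)) z :=
    le_antisymm
      (CH_mono_left hq.nonneg fun a b _ _ h => by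
        have h1 := (Prod.ext_iff.mp h).1
        exact Prod.ext (Prod.ext_iff.mp h1).2 (Prod.ext_iff.mp h1).1)
      (CH_mono_left hq.nonneg fun a b _ _ h => by
        have h1 := (Prod.ext_iff.mp h).1
        exact Prod.ext (Prod.ext_iff.mp h1).2 (Prod.ext_iff.mp h1).1)
  have e5 : CH q x z + CH q y z - CH q (fun a => (x a, y a)) z =
      CH q y z - CH q y (fun a => (x a, z a)) := by
    rw [e4, e3]
    ring
  rw [e1, e2, e5] at h2
  exact h2

/-- **Labels of cells.** The label `(B, k)` is a function of the cell and of the side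
information. -/
theorem det_gen {E X N ζ κ : Type} [Fintype E] {q : E → ℝ} (hq : IsLaw q) (x : E → X) (n : E → N)
    (Z : E → ζ) (B : E → κ) (A : X → κ → Finset N) (hA : ∀ a, 0 < q a → n a ∈ A (x a) (B a))
    {K : ℕ} (hK : ∀ a, 0 < q a → (A (x a) (B a)).card ≤ 2 ^ K) (cost : ζ → X → κ → ℝ) {V C₀ : ℝ}
    (h : CH q B Z + Ex q (fun a => cost (Z a) (x a) (B a)) ≤ V)
    (hc : ∀ a, 0 < q a →
      0 ≤ cost (Z a) (x a) (B a) - Pool.SH.klg x B A a * Real.log 2 + C₀)
    {δ : ℝ} (hδ : 0 < δ) (hδ1 : δ ≤ 1) :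
    ∃ g : ζ → X → κ × ℕ,
      (∀ a, 0 < q a → ∃ a', 0 < q a' ∧ Z a' = Z a ∧ x a' = x a ∧
        (B a', Pool.SH.klg x B A a') = g (Z a) (x a)) ∧
      (∀ a, 0 < q a → 2 ^ (g (Z a) (x a)).2 ≤ (A (x a) (g (Z a) (x a)).1).card) ∧
      CH q (fun a => g (Z a) (x a)) Z + Ex q (fun a => cost (Z a) (x a) (g (Z a) (x a)).1 -
          (g (Z a) (x a)).2 * Real.log 2 + C₀) ≤
        (1 + 3 * δ) * (V - CH q n (fun a => (x a, Z a)) + C₀ + Real.log 2 + Real.log (K + 1)) +
          5 * Lg δ + 15 := by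
  obtain ⟨g, h1, h2⟩ := sel_law hq x (fun a => (B a, Pool.SH.klg x B A a)) Z
    (fun s a b => cost s a b.1 - b.2 * Real.log 2 + C₀) hc hδ hδ1
  refine ⟨g, h1, ?_, h2.trans ?_⟩
  · intro a ha
    obtain ⟨a', h3, h4, h5, h6⟩ := h1 a ha
    have h7 := Pool.SH.klg_le x n B A (hA a' h3)
    rw [h5] at h7
    rw [← h6]
    exact h7
  · have h3 := Pool.SH.soft_gen hq x n Z B A hA hK (fun a => cost (Z a) (x a) (B a)) h
    have e1 : Ex q (fun a => cost (Z a) (x a) (B a) - Pool.SH.klg x B A a * Real.log 2 + C₀) =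
        Ex q (fun a => cost (Z a) (x a) (B a) - Pool.SH.klg x B A a * Real.log 2) + C₀ := by
      rw [Ex_add, Ex_const hq.sum_one]
    have h4 : CH q (fun a => (B a, Pool.SH.klg x B A a)) Z -
        CH q (fun a => (B a, Pool.SH.klg x B A a)) (fun a => (x a, Z a)) +
        Ex q (fun a => cost (Z a) (x a) (B a) - Pool.SH.klg x B A a * Real.log 2 + C₀) ≤
        V - CH q n (fun a => (x a, Z a)) + C₀ + Real.log 2 + Real.log (K + 1) := by
      rw [e1]
      linarith only [h3]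
    have h5 := mul_le_mul_of_nonneg_left h4 (show (0 : ℝ) ≤ 1 + 3 * δ by linarith)
    linarith only [h5]

open Pool.SH in
/-- A mean over a copy. -/
theorem cpy_Ex {m e J : ℕ} {G : CFam m e J} {E : Type} [Fintype E] {q : E → ℝ}
    {pr : E → G.Ω × Nz m e J} (h : Cpy G q pr) (F : G.Ω → ℝ) :
    Ex q (fun a => F (pr a).1) = Ex G.p F := by
  classical
  rw [← up_Ex (N := Nz m e J) G.p F]
  unfold Ex
  rw [sum_mul_eq_sum_image q pr (fun w => F w.1)]
  have h1 : ∀ w, w ∉ univ.image pr → up (Nz m e J) G.p w = 0 := by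
    intro w hw
    rw [← h w]
    exact law_eq_zero_of_notMem q pr hw
  rw [Finset.sum_congr rfl fun w _ => by rw [h w]]
  refine Finset.sum_subset (Finset.subset_univ _) fun w _ hw => ?_
  rw [h1 w hw, zero_mul]

open Pool.SH in
/-- **Labels of curves.** From a label of the lines of the larger space, a label of the curves which
is a function of the curve and of the side information. -/
theorem det {m e J : ℕ} {G : CFam m e J} {E κ : Type} [Fintype E] {q : E → ℝ} (hq : IsLaw q)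
    {pr : E → G.Ω × Nz m e J} (hpr : Cpy G q pr) (B : E → κ)
    (LL : κ → Set (Ln (m * (e + 1))))
    (hB : ∀ a, 0 < q a → lin (G.c (pr a).1) (nz (pr a).2) ∈ LL (B a)) (cost : κ → ℝ) {R C₀ : ℝ}
    (h : CH q B (fun a => G.Z (pr a).1) + Ex q (fun a => cost (B a)) ≤ G.lines.Vf + R)
    (hc : ∀ a, 0 < q a → 0 ≤ cost (B a) - kl LL B pr a * Real.log 2 + C₀)
    {δ : ℝ} (hδ : 0 < δ) (hδ1 : δ ≤ 1) :
    ∃ g : G.ζ → Cf m e → κ × ℕ,
      (∀ ω, 0 < G.p ω → ∃ a, 0 < q a ∧ G.Z (pr a).1 = G.Z ω ∧ G.c (pr a).1 = G.c ω ∧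
        (B a, kl LL B pr a) = g (G.Z ω) (G.c ω)) ∧
      (∀ ω, 0 < G.p ω →
        G.c ω ∈ (lev J (LL (g (G.Z ω) (G.c ω)).1) (2 ^ (g (G.Z ω) (G.c ω)).2) : Set (Cf m e))) ∧
      CH G.p (fun ω => g (G.Z ω) (G.c ω)) G.Z + Ex G.p (fun ω => cost (g (G.Z ω) (G.c ω)).1 -
          (g (G.Z ω) (G.c ω)).2 * Real.log 2 + C₀) ≤
        (1 + 3 * δ) * (G.Vf + R + C₀ + (Cs m e + Real.log 2 + Real.log (J * m * e + 1))) +
          5 * Lg δ + 15 := by
  obtain ⟨s1, s2⟩ := soft hq hpr B LL hB cost h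
  obtain ⟨g, h1, h2⟩ := sel_law hq (fun a => G.c (pr a).1) (fun a => (B a, kl LL B pr a))
    (fun a => G.Z (pr a).1) (fun _ _ b => cost b.1 - b.2 * Real.log 2 + C₀) hc hδ hδ1
  -- the points of the support
  have hsup : ∀ ω, 0 < G.p ω → ∃ a, 0 < q a ∧ (pr a).1 = ω := by
    intro ω hω
    have h3 : 0 < law q pr (ω, fun _ _ => 0) := by
      rw [hpr (ω, fun _ _ => 0)]
      exact up_pos' hω
    by_contra hcon
    push Not at hcon
    have h4 : law q pr (ω, fun _ _ => 0) = 0 := by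
      classical
      unfold law
      refine Finset.sum_eq_zero fun a _ => ?_
      split_ifs with h5
      · by_contra h6
        exact hcon a (lt_of_le_of_ne (hq.nonneg a) (Ne.symm h6)) (by rw [h5])
      · rfl
    rw [h4] at h3
    exact lt_irrefl _ h3
  have h3 : ∀ ω, 0 < G.p ω → ∃ a, 0 < q a ∧ G.Z (pr a).1 = G.Z ω ∧ G.c (pr a).1 = G.c ω ∧
      (B a, kl LL B pr a) = g (G.Z ω) (G.c ω) := by
    intro ω hω
    obtain ⟨a, ha, rfl⟩ := hsup ω hω
    exact h1 a ha
  refine ⟨g, h3, ?_, ?_⟩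
  · intro ω hω
    obtain ⟨a, ha, h4, h5, h6⟩ := h3 ω hω
    have h7 := s1 a ha
    rw [← h6, ← h5]
    exact h7
  · have e1 : CH q (fun a => g (G.Z (pr a).1) (G.c (pr a).1)) (fun a => G.Z (pr a).1) =
        CH G.p (fun ω => g (G.Z ω) (G.c ω)) G.Z := by
      rw [hpr.CH_eq (fun w => g (G.Z w.1) (G.c w.1)) (fun w => G.Z w.1)]
      exact up_CH G.p (fun ω => g (G.Z ω) (G.c ω)) G.Z
    have e2 := cpy_Ex hpr (fun ω => cost (g (G.Z ω) (G.c ω)).1 -
      (g (G.Z ω) (G.c ω)).2 * Real.log 2 + C₀)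
    rw [← e1, ← e2]
    refine h2.trans ?_
    have e3 : Ex q (fun a => cost (B a) - kl LL B pr a * Real.log 2 +
        m * Real.log (2 * e + 3)) = Ex q (fun a => cost (B a) - kl LL B pr a * Real.log 2) +
          m * Real.log (2 * e + 3) := by
      rw [Ex_add, Ex_const hq.sum_one]
    have e4 : Ex q (fun a => cost (B a) - kl LL B pr a * Real.log 2 + C₀) =
        Ex q (fun a => cost (B a) - kl LL B pr a * Real.log 2) + C₀ := by
      rw [Ex_add, Ex_const hq.sum_one]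
    rw [e3] at s2
    have h4 : CH q (fun a => (B a, kl LL B pr a)) (fun a => G.Z (pr a).1) -
        CH q (fun a => (B a, kl LL B pr a)) (fun a => (G.c (pr a).1, G.Z (pr a).1)) +
        Ex q (fun a => cost (B a) - kl LL B pr a * Real.log 2 + C₀) ≤
        G.Vf + R + C₀ + (Cs m e + Real.log 2 + Real.log (J * m * e + 1)) := by
      rw [e4]
      linarith only [s2]
    have h5 := mul_le_mul_of_nonneg_left h4 (show (0 : ℝ) ≤ 1 + 3 * δ by linarith)
    linarith only [h5]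

end Pool.SEL
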