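import Pool.Agent.H49.Ent

/-!
# Two inequalities for entropies

`gibbs`: the entropy is at most the mean of `- log Q` for every subprobability `Q`.
`H_nat_le`: the entropy of an integer with a small mean.
`exp_pos_le`: the mean of the positive part of the information density.
-/

set_option autoImplicit false

namespace Pool.SEL

open Finset Real
open Pool.Agent.H49.Ent
open scoped BigOperators

variable {Ω : Type*} [Fintype Ω] {S T : Type*}

/-- **Gibbs.** -/
theorem gibbs {p : Ω → ℝ} (hp : ∀ ω, 0 ≤ p ω) (h1 : ∑ ω, p ω = 1) (X : Ω → S) (Q : S → ℝ)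
    (F : Finset S) (hF : ∀ ω, 0 < p ω → X ω ∈ F) (hQ : ∀ s ∈ F, 0 < Q s)
    (hQ1 : ∑ s ∈ F, Q s ≤ 1) : H p X ≤ ∑ ω, p ω * (-Real.log (Q (X ω))) := by
  classical
  have key : ∑ ω, p ω * (Q (X ω) / law p X (X ω)) ≤ 1 := by
    rw [sum_mul_eq_sum_image p X (fun s => Q s / law p X s)]
    have h2 : ∀ s ∈ univ.image X, law p X s * (Q s / law p X s) ≤ if s ∈ F then Q s else 0 := by
      intro s _
      by_cases hl : law p X s = 0
      · rw [hl, zero_mul]
        split_ifs with h
        · exact (hQ s h).le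
        · exact le_rfl
      · have hs : s ∈ F := by
          by_contra hs
          apply hl
          unfold law
          refine Finset.sum_eq_zero (fun ω _ => ?_)
          split_ifs with h
          · by_contra h0
            have hω : 0 < p ω := lt_of_le_of_ne (hp ω) (Ne.symm h0)
            exact hs (h ▸ hF ω hω)
          · rfl
        rw [if_pos hs]
        exact le_of_eq (by field_simp)
    calc ∑ s ∈ univ.image X, law p X s * (Q s / law p X s)
        ≤ ∑ s ∈ univ.image X, (if s ∈ F then Q s else 0) := Finset.sum_le_sum h2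
      _ = ∑ s ∈ (univ.image X).filter (fun s => s ∈ F), Q s := by rw [Finset.sum_filter]
      _ ≤ ∑ s ∈ F, Q s := Finset.sum_le_sum_of_subset_of_nonneg
          (fun s hs => (Finset.mem_filter.mp hs).2) fun s hs _ => (hQ s hs).le
      _ ≤ 1 := hQ1
  have h3 : ∀ ω, p ω * (-Real.log (law p X (X ω))) ≤
      p ω * (-Real.log (Q (X ω))) + (p ω * (Q (X ω) / law p X (X ω)) - p ω) := by
    intro ω
    by_cases h0 : p ω = 0
    · simp [h0]
    · have hω : 0 < p ω := lt_of_le_of_ne (hp ω) (Ne.symm h0)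
      have hl := law_pos hp X hω
      have hq := hQ _ (hF ω hω)
      have h4 := Real.log_le_sub_one_of_pos (x := Q (X ω) / law p X (X ω)) (by positivity)
      rw [Real.log_div hq.ne' hl.ne'] at h4
      have := mul_le_mul_of_nonneg_left h4 hω.le
      linarith
  have h5 : H p X = ∑ ω, p ω * (-Real.log (law p X (X ω))) := by
    unfold H
    rw [← Finset.sum_neg_distrib]
    exact Finset.sum_congr rfl (fun ω _ => by ring)
  rw [h5]
  calc ∑ ω, p ω * (-Real.log (law p X (X ω)))
      ≤ ∑ ω, (p ω * (-Real.log (Q (X ω))) + (p ω * (Q (X ω) / law p X (X ω)) - p ω)) :=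
        Finset.sum_le_sum (fun ω _ => h3 ω)
    _ = ∑ ω, p ω * (-Real.log (Q (X ω))) + (∑ ω, p ω * (Q (X ω) / law p X (X ω)) - 1) := by
        rw [Finset.sum_add_distrib, Finset.sum_sub_distrib, h1]
    _ ≤ _ := by linarith

/-- The price of an integer. -/
noncomputable def Lg (δ : ℝ) : ℝ := -Real.log (1 - Real.exp (-δ))

theorem one_sub_exp_pos {δ : ℝ} (hδ : 0 < δ) : 0 < 1 - Real.exp (-δ) := by
  have : Real.exp (-δ) < 1 := by
    rw [← Real.exp_zero]
    exact Real.exp_lt_exp.mpr (by linarith)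
  linarith

theorem Lg_nonneg {δ : ℝ} (hδ : 0 < δ) : 0 ≤ Lg δ := by
  unfold Lg
  have h1 := one_sub_exp_pos hδ
  have h2 : 1 - Real.exp (-δ) ≤ 1 := by
    have := Real.exp_pos (-δ)
    linarith
  have := Real.log_nonpos h1.le h2
  linarith

theorem Lg_le {δ : ℝ} (hδ : 0 < δ) (hδ1 : δ ≤ 1) : Lg δ ≤ Real.log (2 / δ) := by
  unfold Lg
  have h1 : Real.exp (-δ) ≤ 1 / (1 + δ) := by
    rw [Real.exp_neg, ← one_div]
    refine one_div_le_one_div_of_le (by linarith) ?_
    have := Real.add_one_le_exp δ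
    linarith
  have h2 : δ / 2 ≤ 1 - Real.exp (-δ) := by
    have h3 : 1 - 1 / (1 + δ) = δ / (1 + δ) := by
      field_simp
      ring
    have h4 : δ / 2 ≤ δ / (1 + δ) := by
      refine div_le_div_of_nonneg_left hδ.le (by linarith) (by linarith)
    linarith
  have h3 : Real.log (δ / 2) ≤ Real.log (1 - Real.exp (-δ)) := Real.log_le_log (by positivity) h2
  have h4 : Real.log (2 / δ) = -Real.log (δ / 2) := by
    rw [← Real.log_inv]
    congr 1
    field_simp
  rw [h4]
  linarith

/-- **The entropy of an integer.** -/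
theorem H_nat_le {p : Ω → ℝ} (hp : ∀ ω, 0 ≤ p ω) (h1 : ∑ ω, p ω = 1) (N : Ω → ℕ) {δ : ℝ}
    (hδ : 0 < δ) : H p N ≤ δ * ∑ ω, p ω * N ω + Lg δ := by
  classical
  obtain ⟨M, hM⟩ : ∃ M : ℕ, ∀ ω, N ω < M := by
    refine ⟨∑ ω, N ω + 1, fun ω => ?_⟩
    have := Finset.single_le_sum (f := N) (fun ω' _ => Nat.zero_le _) (Finset.mem_univ ω)
    omega
  have hpos := one_sub_exp_pos hδ
  have h := gibbs hp h1 N (fun n => (1 - Real.exp (-δ)) * Real.exp (-δ) ^ n) (range M)
    (fun ω _ => Finset.mem_range.mpr (hM ω)) (fun s _ => by positivity) ?_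
  · refine h.trans (le_of_eq ?_)
    have h2 : ∀ ω, p ω * (-Real.log ((1 - Real.exp (-δ)) * Real.exp (-δ) ^ (N ω)))
        = δ * (p ω * N ω) + p ω * Lg δ := by
      intro ω
      rw [Real.log_mul hpos.ne' (by positivity), Real.log_pow, Real.log_exp]
      unfold Lg
      ring
    rw [Finset.sum_congr rfl fun ω _ => h2 ω, Finset.sum_add_distrib, ← Finset.mul_sum,
      ← Finset.sum_mul, h1, one_mul]
  · rw [← Finset.mul_sum, geom_sum_eq (by linarith)]
    have h3 : Real.exp (-δ) - 1 ≠ 0 := by linarith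
    have h4 : (1 - Real.exp (-δ)) * ((Real.exp (-δ) ^ M - 1) / (Real.exp (-δ) - 1))
        = 1 - Real.exp (-δ) ^ M := by
      field_simp
      ring
    rw [h4]
    have : 0 ≤ Real.exp (-δ) ^ M := by positivity
    linarith

/-- The information density. -/
noncomputable def ida (p : Ω → ℝ) (x : Ω → S) (y : Ω → T) (ω : Ω) : ℝ :=
  Real.log (law p (fun ω => (x ω, y ω)) (x ω, y ω) / (law p x (x ω) * law p y (y ω)))

theorem sum_ida {p : Ω → ℝ} (hp : ∀ ω, 0 ≤ p ω) (x : Ω → S) (y : Ω → T) :
    ∑ ω, p ω * ida p x y ω = H p x + H p y - H p (fun ω => (x ω, y ω)) := by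
  unfold H
  rw [← Finset.sum_neg_distrib, ← Finset.sum_neg_distrib, ← Finset.sum_neg_distrib,
    ← Finset.sum_add_distrib, ← Finset.sum_sub_distrib]
  refine Finset.sum_congr rfl fun ω _ => ?_
  by_cases h0 : p ω = 0
  · simp [h0]
  · have hω : 0 < p ω := lt_of_le_of_ne (hp ω) (Ne.symm h0)
    have a1 := law_pos hp x hω
    have a2 := law_pos hp y hω
    have a3 := law_pos hp (fun ω => (x ω, y ω)) hω
    unfold ida
    rw [Real.log_div a3.ne' (mul_pos a1 a2).ne', Real.log_mul a1.ne' a2.ne']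
    ring

/-- The mean of the positive part. -/
theorem pos_ida {p : Ω → ℝ} (hp : ∀ ω, 0 ≤ p ω) (h1 : ∑ ω, p ω = 1) (x : Ω → S) (y : Ω → T) :
    ∑ ω, p ω * max (ida p x y ω) 0 ≤ H p x + H p y - H p (fun ω => (x ω, y ω)) + 1 := by
  classical
  have key : ∑ ω, p ω * (law p x (x ω) * law p y (y ω) /
      law p (fun ω => (x ω, y ω)) (x ω, y ω)) ≤ 1 := by
    rw [sum_mul_eq_sum_image p (fun ω => (x ω, y ω)) (fun s => law p x s.1 * law p y s.2 /
      law p (fun ω => (x ω, y ω)) s)]
    have h2 : ∀ s ∈ univ.image (fun ω => (x ω, y ω)), law p (fun ω => (x ω, y ω)) s *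
        (law p x s.1 * law p y s.2 / law p (fun ω => (x ω, y ω)) s) ≤
        law p x s.1 * law p y s.2 := by
      intro s _
      by_cases hl : law p (fun ω => (x ω, y ω)) s = 0
      · rw [hl, zero_mul]
        exact mul_nonneg (law_nonneg hp _ _) (law_nonneg hp _ _)
      · exact le_of_eq (by field_simp)
    calc ∑ s ∈ univ.image (fun ω => (x ω, y ω)), law p (fun ω => (x ω, y ω)) s *
        (law p x s.1 * law p y s.2 / law p (fun ω => (x ω, y ω)) s)
        ≤ ∑ s ∈ univ.image (fun ω => (x ω, y ω)), law p x s.1 * law p y s.2 :=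
          Finset.sum_le_sum h2
      _ ≤ ∑ s ∈ (univ.image x) ×ˢ (univ.image y), law p x s.1 * law p y s.2 := by
          refine Finset.sum_le_sum_of_subset_of_nonneg ?_ fun s _ _ =>
            mul_nonneg (law_nonneg hp _ _) (law_nonneg hp _ _)
          intro s hs
          obtain ⟨ω, -, rfl⟩ := Finset.mem_image.mp hs
          exact Finset.mem_product.mpr ⟨Finset.mem_image_of_mem _ (Finset.mem_univ _),
            Finset.mem_image_of_mem _ (Finset.mem_univ _)⟩
      _ = (∑ a ∈ univ.image x, law p x a) * ∑ b ∈ univ.image y, law p y b := by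
          rw [Finset.sum_product, Finset.sum_mul_sum]
      _ ≤ 1 := by rw [sum_law, sum_law, h1, one_mul]
  have h3 : ∀ ω, p ω * max (ida p x y ω) 0 ≤ p ω * ida p x y ω +
      p ω * (law p x (x ω) * law p y (y ω) / law p (fun ω => (x ω, y ω)) (x ω, y ω)) := by
    intro ω
    by_cases h0 : p ω = 0
    · simp [h0]
    · have hω : 0 < p ω := lt_of_le_of_ne (hp ω) (Ne.symm h0)
      have a1 := law_pos hp x hω
      have a2 := law_pos hp y hω
      have a3 := law_pos hp (fun ω => (x ω, y ω)) hω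
      rw [← mul_add]
      refine mul_le_mul_of_nonneg_left ?_ hω.le
      have h5 : 0 < law p x (x ω) * law p y (y ω) / law p (fun ω => (x ω, y ω)) (x ω, y ω) := by
        positivity
      have h4 := Real.log_le_sub_one_of_pos h5
      have h6 : Real.log (law p x (x ω) * law p y (y ω) /
          law p (fun ω => (x ω, y ω)) (x ω, y ω)) = -ida p x y ω := by
        unfold ida
        rw [← Real.log_inv]
        congr 1
        rw [inv_div]
      rw [h6] at h4
      refine max_le ?_ ?_ <;> linarith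
  calc ∑ ω, p ω * max (ida p x y ω) 0 ≤ ∑ ω, (p ω * ida p x y ω +
      p ω * (law p x (x ω) * law p y (y ω) / law p (fun ω => (x ω, y ω)) (x ω, y ω))) :=
        Finset.sum_le_sum fun ω _ => h3 ω
    _ ≤ _ := by
        rw [Finset.sum_add_distrib, sum_ida hp]
        linarith

end Pool.SEL
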