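import Pool.Agent.H85.SEL.Cover

/-!
# Selection of a symbol

`sel`: let `(x, y)` be a pair of variables, `c ≥ 0` a cost. There is a function `g` such that
`(a, g a)` is in the support of the law of `(x, y)` for every value `a` of `x`, and
`H (g x) + E c (x, g x) ≤ I (x; y) + E c (x, y)` up to a small error. `sel_cond`: given `z`.
-/

set_option autoImplicit false

namespace Pool.SEL

open Finset Real
open Pool.Agent.H49.Ent
open scoped BigOperators

variable {Ω : Type*} [Fintype Ω] {α β γ : Type*}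

/-- The joint law of `(x, k)` on a fibre, when `k` is a function of `(x, y)`. -/
theorem law_le_level {κ : Type*} [DecidableEq α] [DecidableEq β] [DecidableEq κ] {p : Ω → ℝ}
    (hp : ∀ ω, 0 ≤ p ω) (x : Ω → α) (y : Ω → β) (k : Ω → κ) (a : α) (l : κ) {B : ℝ}
    (h : ∀ ω, 0 < p ω → x ω = a → k ω = l →
      law p (fun ω => (x ω, y ω)) (a, y ω) ≤ B * law p y (y ω)) :
    law p (fun ω => (x ω, k ω)) (a, l) ≤
      B * ∑ b ∈ (univ.filter (fun ω => 0 < p ω ∧ x ω = a ∧ k ω = l)).image y, law p y b := by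
  classical
  rw [Finset.mul_sum]
  calc law p (fun ω => (x ω, k ω)) (a, l)
      = ∑ ω ∈ univ.filter (fun ω => 0 < p ω ∧ x ω = a ∧ k ω = l), p ω := by
        unfold law
        rw [Finset.sum_filter]
        refine Finset.sum_congr rfl fun ω _ => ?_
        by_cases h0 : 0 < p ω
        · by_cases h1 : x ω = a ∧ k ω = l
          · rw [if_pos (Prod.ext h1.1 h1.2), if_pos ⟨h0, h1⟩]
          · rw [if_neg (fun hc => h1 ⟨congrArg Prod.fst hc, congrArg Prod.snd hc⟩),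
              if_neg (fun hc => h1 hc.2)]
        · have h2 : p ω = 0 := le_antisymm (not_lt.mp h0) (hp ω)
          rw [h2, ite_self, ite_self]
    _ = ∑ b ∈ (univ.filter (fun ω => 0 < p ω ∧ x ω = a ∧ k ω = l)).image y,
          ∑ ω ∈ (univ.filter (fun ω => 0 < p ω ∧ x ω = a ∧ k ω = l)).filter (fun ω => y ω = b),
            p ω := (Finset.sum_fiberwise_of_maps_to
              (fun ω hω => Finset.mem_image_of_mem y hω) p).symm
    _ ≤ _ := by
        refine Finset.sum_le_sum fun b hb => ?_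
        obtain ⟨ω₀, hω₀, rfl⟩ := Finset.mem_image.mp hb
        have h0 := (Finset.mem_filter.mp hω₀).2
        refine le_trans ?_ (h ω₀ h0.1 h0.2.1 h0.2.2)
        unfold law
        rw [Finset.sum_filter, Finset.sum_filter]
        refine Finset.sum_le_sum fun ω _ => ?_
        by_cases h1 : 0 < p ω ∧ x ω = a ∧ k ω = l
        · rw [if_pos h1]
          by_cases h2 : y ω = y ω₀
          · rw [if_pos h2, if_pos (Prod.ext h1.2.1 h2)]
          · rw [if_neg h2]
            split_ifs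
            · exact hp ω
            · exact le_rfl
        · rw [if_neg h1]
          split_ifs
          · exact hp ω
          · exact le_rfl

/-- The mean over a fibre is at least the minimum. -/
theorem fibre_min [DecidableEq α] {p : Ω → ℝ} (hp : ∀ ω, 0 ≤ p ω) (x : Ω → α) (V : Ω → ℝ) :
    ∃ r : α → Ω → Prop, (∀ a, 0 < law p x a → ∃ ω, r a ω) ∧
      (∀ a ω, r a ω → x ω = a ∧ 0 < p ω ∧ ∀ ω', x ω' = a → 0 < p ω' → V ω ≤ V ω') := by
  classical
  refine ⟨fun a ω => x ω = a ∧ 0 < p ω ∧ ∀ ω', x ω' = a → 0 < p ω' → V ω ≤ V ω', ?_,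
    fun a ω h => h⟩
  intro a ha
  have hne : (univ.filter (fun ω => x ω = a ∧ 0 < p ω)).Nonempty := by
    by_contra hcon
    rw [Finset.not_nonempty_iff_eq_empty] at hcon
    have : law p x a = 0 := by
      unfold law
      refine Finset.sum_eq_zero fun ω _ => ?_
      split_ifs with h
      · by_contra h0
        have h2 : ω ∈ univ.filter (fun ω => x ω = a ∧ 0 < p ω) :=
          Finset.mem_filter.mpr ⟨Finset.mem_univ _, h, lt_of_le_of_ne (hp ω) (Ne.symm h0)⟩
        rw [hcon] at h2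
        simp at h2
      · rfl
    linarith
  obtain ⟨ω, hω, hmin⟩ := Finset.exists_min_image _ V hne
  rw [Finset.mem_filter] at hω
  exact ⟨ω, hω.2.1, hω.2.2, fun ω' h1 h2 => hmin ω' (Finset.mem_filter.mpr
    ⟨Finset.mem_univ _, h1, h2⟩)⟩

/-- `H (k | x)` as a mean. -/
theorem mean_log {κ : Type*} {p : Ω → ℝ} (hp : ∀ ω, 0 ≤ p ω) (x : Ω → α) (k : Ω → κ) :
    ∑ ω, p ω * Real.log (law p x (x ω) / law p (fun ω => (x ω, k ω)) (x ω, k ω)) =
      H p (fun ω => (x ω, k ω)) - H p x := by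
  unfold H
  rw [← Finset.sum_neg_distrib, ← Finset.sum_neg_distrib, ← Finset.sum_sub_distrib]
  refine Finset.sum_congr rfl fun ω _ => ?_
  by_cases h0 : p ω = 0
  · simp [h0]
  · have hω : 0 < p ω := lt_of_le_of_ne (hp ω) (Ne.symm h0)
    have a1 := law_pos hp x hω
    have a3 := law_pos hp (fun ω => (x ω, k ω)) hω
    rw [Real.log_div a1.ne' a3.ne']
    ring

/-- **Selection.** -/
theorem sel {p : Ω → ℝ} (hp : ∀ ω, 0 ≤ p ω) (h1 : ∑ ω, p ω = 1) (x : Ω → α) (y : Ω → β)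
    (c : α → β → ℝ) (hc : ∀ a b, 0 ≤ c a b) {δ : ℝ} (hδ : 0 < δ) (hδ1 : δ ≤ 1) :
    ∃ g : α → β, (∀ ω, 0 < p ω → ∃ ω', 0 < p ω' ∧ x ω' = x ω ∧ y ω' = g (x ω)) ∧
      H p (fun ω => g (x ω)) + ∑ ω, p ω * c (x ω) (g (x ω)) ≤
        (1 + 3 * δ) * (H p x + H p y - H p (fun ω => (x ω, y ω)) + ∑ ω, p ω * c (x ω) (y ω)) +
          5 * Lg δ + 15 := by
  classical
  obtain ⟨ω₁, hω₁⟩ : ∃ ω, 0 < p ω := by
    by_contra hcon
    push Not at hcon
    have : ∑ ω, p ω = 0 := Finset.sum_eq_zero (fun ω _ => le_antisymm (hcon ω) (hp ω))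
    linarith
  have : Nonempty β := ⟨y ω₁⟩
  -- the levels
  obtain ⟨n, hn⟩ : ∃ n : Ω → ℕ, n = fun ω => ⌈max (ida p x y ω) 0⌉₊ := ⟨_, rfl⟩
  obtain ⟨m, hm⟩ : ∃ m : Ω → ℕ, m = fun ω => ⌈c (x ω) (y ω)⌉₊ := ⟨_, rfl⟩
  have hn1 : ∀ ω, ida p x y ω ≤ n ω := by
    intro ω
    rw [hn]
    exact (le_max_left _ _).trans (Nat.le_ceil _)
  have hn2 : ∑ ω, p ω * (n ω : ℝ) ≤
      H p x + H p y - H p (fun ω => (x ω, y ω)) + 2 := by
    have e : ∀ ω, p ω * (n ω : ℝ) ≤ p ω * max (ida p x y ω) 0 + p ω := by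
      intro ω
      have := (Nat.ceil_lt_add_one (le_max_right (ida p x y ω) 0)).le
      have h2 := mul_le_mul_of_nonneg_left this (hp ω)
      rw [hn]
      linarith
    have h2 := Finset.sum_le_sum fun ω (_ : ω ∈ univ) => e ω
    rw [Finset.sum_add_distrib, h1] at h2
    have h3 := pos_ida hp h1 x y
    linarith
  have hm1 : ∀ ω, c (x ω) (y ω) ≤ m ω := by
    intro ω
    rw [hm]
    exact Nat.le_ceil _
  have hm2 : ∑ ω, p ω * (m ω : ℝ) ≤ ∑ ω, p ω * c (x ω) (y ω) + 1 := by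
    have e : ∀ ω, p ω * (m ω : ℝ) ≤ p ω * c (x ω) (y ω) + p ω := by
      intro ω
      have := (Nat.ceil_lt_add_one (hc (x ω) (y ω))).le
      have h2 := mul_le_mul_of_nonneg_left this (hp ω)
      rw [hm]
      linarith
    have h2 := Finset.sum_le_sum fun ω (_ : ω ∈ univ) => e ω
    rw [Finset.sum_add_distrib, h1] at h2
    exact h2
  -- the entropy of the levels
  obtain ⟨k, hk⟩ : ∃ k : Ω → ℕ × ℕ, k = fun ω => (n ω, m ω) := ⟨_, rfl⟩
  have hHk : H p (fun ω => (x ω, k ω)) - H p x ≤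
      δ * (∑ ω, p ω * (n ω : ℝ) + ∑ ω, p ω * (m ω : ℝ)) + 2 * Lg δ := by
    have a1 := subadd hp h1 (W := fun ω => (x ω, k ω)) (X := x) (Y := k) ?_
    · have a2 := subadd hp h1 (W := k) (X := n) (Y := m) ?_
      · have a3 := H_nat_le hp h1 n hδ
        have a4 := H_nat_le hp h1 m hδ
        linarith
      · intro ω ω' _ _ h
        rw [hk]
        exact h
    · intro ω ω' _ _ h
      exact h
  -- the values
  obtain ⟨v, hv⟩ : ∃ v : Ω → ℝ, v = fun ω => (n ω : ℝ) +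
    Real.log (law p x (x ω) / law p (fun ω => (x ω, k ω)) (x ω, k ω)) := ⟨_, rfl⟩
  have hlog0 : ∀ ω, 0 < p ω →
      0 ≤ Real.log (law p x (x ω) / law p (fun ω => (x ω, k ω)) (x ω, k ω)) := by
    intro ω hω
    refine Real.log_nonneg ?_
    rw [le_div_iff₀ (law_pos hp (fun ω => (x ω, k ω)) hω), one_mul]
    exact law_mono_of_det hp (X := fun ω => (x ω, k ω)) (Y := x)
      (fun _ _ _ _ h => congrArg Prod.fst h) hω
  obtain ⟨r, hr1, hr2⟩ := fibre_min hp x (fun ω => v ω + m ω)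
  obtain ⟨ρ, hρ⟩ : ∃ ρ : α → Ω, ∀ a, 0 < law p x a → r a (ρ a) := by
    refine ⟨fun a => if h : 0 < law p x a then (hr1 a h).choose else ω₁, fun a ha => ?_⟩
    simp only [ha, dif_pos]
    exact (hr1 a ha).choose_spec
  have hρ1 : ∀ ω, 0 < p ω → x (ρ (x ω)) = x ω ∧ 0 < p (ρ (x ω)) ∧
      v (ρ (x ω)) + m (ρ (x ω)) ≤ v ω + m ω := by
    intro ω hω
    have h2 := hr2 _ _ (hρ (x ω) (law_pos hp x hω))
    exact ⟨h2.1, h2.2.1, h2.2.2 ω rfl hω⟩
  -- the mean of the minimal values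
  have hmean : ∑ ω, p ω * (v (ρ (x ω)) + m (ρ (x ω))) ≤
      (1 + δ) * (∑ ω, p ω * (n ω : ℝ) + ∑ ω, p ω * (m ω : ℝ)) + 2 * Lg δ := by
    have e1 : ∑ ω, p ω * (v (ρ (x ω)) + m (ρ (x ω))) ≤ ∑ ω, p ω * (v ω + m ω) := by
      refine Finset.sum_le_sum fun ω _ => ?_
      by_cases h0 : p ω = 0
      · simp [h0]
      · have hω : 0 < p ω := lt_of_le_of_ne (hp ω) (Ne.symm h0)
        exact mul_le_mul_of_nonneg_left (hρ1 ω hω).2.2 hω.le
    have e2 : ∑ ω, p ω * (v ω + m ω) = ∑ ω, p ω * (n ω : ℝ) +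
        ∑ ω, p ω * Real.log (law p x (x ω) / law p (fun ω => (x ω, k ω)) (x ω, k ω)) +
        ∑ ω, p ω * (m ω : ℝ) := by
      rw [← Finset.sum_add_distrib, ← Finset.sum_add_distrib]
      refine Finset.sum_congr rfl fun ω _ => ?_
      rw [hv]
      ring
    rw [e2, mean_log hp] at e1
    linarith
  -- the admissible symbols
  obtain ⟨G, hG⟩ : ∃ G : α → Finset β, G = fun a =>
    (univ.filter (fun ω => 0 < p ω ∧ x ω = a ∧ k ω = k (ρ a))).image y := ⟨_, rfl⟩
  obtain ⟨w, hw⟩ : ∃ w : α → ℝ, w = fun a => max (v (ρ a)) 0 := ⟨_, rfl⟩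
  have hwv : ∀ ω, 0 < p ω → w (x ω) = v (ρ (x ω)) := by
    intro ω hω
    rw [hw]
    refine max_eq_left ?_
    rw [hv]
    have h2 := (hρ1 ω hω).2.1
    have h3 := hlog0 _ h2
    have h4 : (0 : ℝ) ≤ n (ρ (x ω)) := Nat.cast_nonneg _
    linarith
  have hmass : ∀ ω, 0 < p ω → Real.exp (-w (x ω)) ≤ ∑ b ∈ G (x ω), law p y b := by
    intro ω hω
    obtain ⟨g1, g2, -⟩ := hρ1 ω hω
    have hl := law_pos hp x g2
    have hlk := law_pos hp (fun ω => (x ω, k ω)) g2
    have key := law_le_level hp x y k (x ω) (k (ρ (x ω)))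
      (B := Real.exp (n (ρ (x ω))) * law p x (x ω)) ?_
    · have e1 : Real.exp (-w (x ω)) = Real.exp (-(n (ρ (x ω)) : ℝ)) *
          (law p (fun ω => (x ω, k ω)) (x ω, k (ρ (x ω))) / law p x (x ω)) := by
        rw [hwv ω hω, hv]
        show Real.exp (-((n (ρ (x ω)) : ℝ) + Real.log (law p x (x (ρ (x ω))) /
          law p (fun ω => (x ω, k ω)) (x (ρ (x ω)), k (ρ (x ω)))))) = _
        rw [neg_add, Real.exp_add, ← Real.log_inv, inv_div, Real.exp_log (by positivity), g1]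
      rw [e1]
      have hx := law_pos hp x hω
      have e2 : Real.exp (-(n (ρ (x ω)) : ℝ)) *
          (law p (fun ω => (x ω, k ω)) (x ω, k (ρ (x ω))) / law p x (x ω)) ≤
          Real.exp (-(n (ρ (x ω)) : ℝ)) * ((Real.exp (n (ρ (x ω))) * law p x (x ω) *
            ∑ b ∈ G (x ω), law p y b) / law p x (x ω)) := by
        refine mul_le_mul_of_nonneg_left ?_ (Real.exp_pos _).le
        refine div_le_div_of_nonneg_right ?_ hx.le
        rw [hG]
        exact key
      refine e2.trans (le_of_eq ?_)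
      rw [Real.exp_neg]
      field_simp
    · intro ω' h2 h3 h4
      have a1 := law_pos hp x h2
      have a2 := law_pos hp y h2
      have a3 := law_pos hp (fun ω => (x ω, y ω)) h2
      have h5 := hn1 ω'
      have h6 : n ω' = n (ρ (x ω)) := by
        rw [hk] at h4
        exact congrArg Prod.fst h4
      rw [h6] at h5
      unfold ida at h5
      rw [Real.log_le_iff_le_exp (by positivity), div_le_iff₀ (by positivity)] at h5
      rw [h3] at h5
      linarith
  obtain ⟨g, hg1, hg2⟩ := cover hp h1 x (T := univ.image y) (Q := law p y)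
    (fun b _ => law_nonneg hp y b) (by rw [sum_law, h1]) (G := G)
    (fun a b hb => by
      rw [hG] at hb
      obtain ⟨ω, -, rfl⟩ := Finset.mem_image.mp hb
      exact Finset.mem_image_of_mem _ (Finset.mem_univ _)) w hmass
    (fun a => by rw [hw]; exact le_max_right _ _) hδ
  refine ⟨g, ?_, ?_⟩
  · intro ω hω
    have h2 := hg1 ω hω
    rw [hG] at h2
    obtain ⟨ω', h3, h4⟩ := Finset.mem_image.mp h2
    rw [Finset.mem_filter] at h3
    exact ⟨ω', h3.2.1, h3.2.2.1, h4⟩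
  · have hcost : ∑ ω, p ω * c (x ω) (g (x ω)) ≤ ∑ ω, p ω * (m (ρ (x ω)) : ℝ) := by
      refine Finset.sum_le_sum fun ω _ => ?_
      by_cases h0 : p ω = 0
      · simp [h0]
      · have hω : 0 < p ω := lt_of_le_of_ne (hp ω) (Ne.symm h0)
        refine mul_le_mul_of_nonneg_left ?_ hω.le
        have h2 := hg1 ω hω
        rw [hG] at h2
        obtain ⟨ω', h3, h4⟩ := Finset.mem_image.mp h2
        rw [Finset.mem_filter] at h3
        have h5 : m ω' = m (ρ (x ω)) := by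
          have := h3.2.2.2
          rw [hk] at this
          exact congrArg Prod.snd this
        have h6 := hm1 ω'
        rw [h3.2.2.1, h4, h5] at h6
        exact h6
    have hwm : ∑ ω, p ω * w (x ω) + ∑ ω, p ω * (m (ρ (x ω)) : ℝ) =
        ∑ ω, p ω * (v (ρ (x ω)) + m (ρ (x ω))) := by
      rw [← Finset.sum_add_distrib]
      refine Finset.sum_congr rfl fun ω _ => ?_
      by_cases h0 : p ω = 0
      · simp [h0]
      · have hω : 0 < p ω := lt_of_le_of_ne (hp ω) (Ne.symm h0)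
        rw [hwv ω hω]
        ring
    obtain ⟨A, hA⟩ : ∃ A, A = H p x + H p y - H p (fun ω => (x ω, y ω)) := ⟨_, rfl⟩
    obtain ⟨B, hB⟩ : ∃ B, B = ∑ ω, p ω * c (x ω) (y ω) := ⟨_, rfl⟩
    obtain ⟨W, hW⟩ : ∃ W, W = ∑ ω, p ω * w (x ω) := ⟨_, rfl⟩
    obtain ⟨M, hM⟩ : ∃ M, M = ∑ ω, p ω * (m (ρ (x ω)) : ℝ) := ⟨_, rfl⟩
    rw [← hA, ← hB]
    rw [← hA] at hn2
    rw [← hB] at hm2
    rw [← hW] at hg2 hwm
    rw [← hM] at hwm hcost
    rw [← hwm] at hmean
    have hM0 : 0 ≤ M := by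
      rw [hM]
      exact Finset.sum_nonneg fun ω _ => mul_nonneg (hp ω) (Nat.cast_nonneg _)
    have hL := Lg_nonneg hδ
    have hB0 : 0 ≤ B := by
      rw [hB]
      exact Finset.sum_nonneg fun ω _ => mul_nonneg (hp ω) (hc _ _)
    have hA0 : 0 ≤ A := by
      have := subadd hp h1 (W := fun ω => (x ω, y ω)) (X := x) (Y := y)
        (fun _ _ _ _ h => h)
      rw [hA]
      linarith
    have k1 : (1 + δ) * (∑ ω, p ω * (n ω : ℝ) + ∑ ω, p ω * (m ω : ℝ)) ≤
        (1 + δ) * (A + B + 3) := mul_le_mul_of_nonneg_left (by linarith) (by linarith)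
    have k2 : W + M ≤ (1 + δ) * (A + B + 3) + 2 * Lg δ := by linarith
    have k3 : (1 + δ) * (W + M) ≤ (1 + δ) * ((1 + δ) * (A + B + 3) + 2 * Lg δ) :=
      mul_le_mul_of_nonneg_left k2 (by linarith)
    have k4 : 0 ≤ δ * M := mul_nonneg hδ.le hM0
    have k5 : δ * δ * (A + B + 3) ≤ δ * (A + B + 3) := by
      refine mul_le_mul_of_nonneg_right ?_ (by linarith)
      nlinarith
    have k6 : δ * Lg δ ≤ Lg δ := by nlinarith
    nlinarith [k3, k4, k5, k6, hg2, hcost]

end Pool.SEL
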